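import Pool.Agent.Q171.BW.Ends

/-!
# A one ended critical branching random walk for a symmetric kernel
-/

open MeasureTheory ProbabilityTheory Filter
open scoped ENNReal

namespace Pool.Agent.Results.MP_b68431_pr.OneEndedCritical

open Pool.Agent.Q171.BW

/-- There are an infinite connected locally finite graph `G`, a symmetric (hence
quasi-symmetric) irreducible nearest neighbour kernel `P` on `G` with spectral radius
`ρ < 1`, and an offspring law `μ` with `μ 0 = 0` and mean `ρ⁻¹`, such that for every
starting vertex the trace of the branching random walk has exactly one end almost surely. -/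
theorem result : ∃ (V : Type) (_ : Countable V) (_ : Infinite V) (_ : MeasurableSpace V)
    (_ : DiscreteMeasurableSpace V) (G : SimpleGraph V) (P : V → PMF V) (μ : PMF ℕ)
    (ρ : ℝ≥0∞),
    G.Connected ∧ (∀ x, (G.neighborSet x).Finite) ∧ NearestNeighbour G P ∧ Irred P ∧
    (∀ x y, P x y = P y x) ∧ QuasiSymmetric P ∧ IsSpectralRadius P ρ ∧ ρ < 1 ∧
    μ 0 = 0 ∧ mean μ = ρ⁻¹ ∧
    ∀ o : V, ∀ᵐ ω ∂envLaw μ P, ends (trace ω o) = 1 := by
  refine ⟨cc.Vtx, inferInstance, ?_, inferInstance, inferInstance, GG, cc.P, PMF.pure 1024,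
    (1024 : ℝ≥0∞)⁻¹, gg_connected, ?_, nn, irred, cc.P_symm, quasi, spec, ?_, ?_, ?_,
    main_ends⟩
  · refine Infinite.of_injective v0 ?_
    intro a b hab
    exact congrArg Sigma.fst hab
  · intro x
    refine ((lev (x.1 + 1)) ∪ (lev (x.1 - 1))).finite_toSet.subset ?_
    intro y hy
    have hmem : ∀ z : cc.Vtx, z ∈ lev z.1 := fun z =>
      Finset.mem_map.2 ⟨z.2, Finset.mem_univ _, rfl⟩
    rw [Finset.coe_union]
    rcases (hy : y.1 = x.1 + 1 ∨ x.1 = y.1 + 1) with h | h
    · left
      have := hmem y
      rw [h] at this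
      exact this
    · right
      have := hmem y
      rw [show y.1 = x.1 - 1 by omega] at this
      exact this
  · rw [ENNReal.inv_lt_one]
    norm_num
  · simp
  · rw [inv_inv, mean, tsum_eq_single 1024]
    · simp
    · intro n hn
      simp [PMF.pure_apply, hn]

end Pool.Agent.Results.MP_b68431_pr.OneEndedCritical
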